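import Mathlib
import Pool.Agent.E8helper61.EF.Stm

/-!
# The recursive bound
-/

set_option autoImplicit false

open Finset

namespace Pool.Agent.E8helper99.EF

open Pool.Agent.E8helper61.EF

/-- the initial segment -/
def ini (n M : ℕ) : Finset (Fin n) := univ.filter (fun x => x.val < M)

lemma card_ini {n M : ℕ} (h : M ≤ n) : (ini n M).card = M := by
  have : ini n M = (univ : Finset (Fin M)).map (Fin.castLEEmb h) := by
    ext x
    simp only [ini, mem_filter, mem_univ, true_and, mem_map, Fin.castLEEmb_apply]
    constructor
    · intro hx
      exact ⟨⟨x.val, hx⟩, rfl⟩
    · rintro ⟨y, rfl⟩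
      exact y.2
  rw [this, card_map, card_univ, Fintype.card_fin]

lemma direct {n k M d : ℕ} (A : Finset (Finset (Fin n))) (hM : M ≤ n) (hA : Supp M A)
    (hMd : M ≤ d) : A.card ≤ bb k M d := by
  have h1 : A ⊆ (ini n M).powerset := by
    intro B hB
    rw [mem_powerset]
    intro x hx
    exact mem_filter.2 ⟨mem_univ _, hA B hB x hx⟩
  have h2 := card_le_card h1
  rw [card_powerset, card_ini hM] at h2
  have h3 : 2 ^ M ≤ 2 ^ d := Nat.pow_le_pow_right (by norm_num) hMd
  have h4 : 2 ^ d ≤ bb k M d := by
    unfold bb
    have := single_le_sum (f := fun s => M.choose s * 2 ^ (d - k * s)) (s := range (d / k + 1))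
      (fun _ _ => Nat.zero_le _) (mem_range.2 (Nat.succ_pos _) : 0 ∈ range (d / k + 1))
    simpa using this
  exact h2.trans (h3.trans h4)

lemma pascal {k M d : ℕ} (hk : 1 ≤ k) (hd : k ≤ d) :
    bb k (M + 1) d = bb k M d + bb k M (d - k) := by
  have hq : d / k = (d - k) / k + 1 := by
    rw [Nat.div_eq_sub_div (by omega) hd]
  unfold bb
  rw [hq]
  set p := (d - k) / k with hp
  rw [sum_range_succ' _ (p + 1), sum_range_succ' (fun s => M.choose s * 2 ^ (d - k * s)) (p + 1)]
  have h1 : ∀ s ∈ range (p + 1), (M + 1).choose (s + 1) * 2 ^ (d - k * (s + 1)) =
      M.choose (s + 1) * 2 ^ (d - k * (s + 1)) + M.choose s * 2 ^ (d - k - k * s) := by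
    intro s _
    have : d - k * (s + 1) = d - k - k * s := by
      rw [Nat.sub_sub]; congr 1; ring
    rw [this, Nat.choose_succ_succ']
    ring
  rw [sum_congr rfl h1, sum_add_distrib]
  simp only [Nat.choose_zero_right, mul_zero, Nat.sub_zero, one_mul]
  ring

theorem recT : RecStatement := by
  intro hS _ n k M d A hk hM hKU hSupp
  induction M generalizing d A with
  | zero => exact direct A hM hSupp (Nat.zero_le _)
  | succ M ih =>
    by_cases hMd : M + 1 ≤ d
    · exact direct A hM hSupp hMd
    push Not at hMd
    obtain ⟨B, hAB, hKB, hDown, hSh, hSuppB⟩ := hS n k d A hk hKU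
    have hSB := hSuppB (M + 1) hSupp
    refine hAB.trans ?_
    set m : Fin n := ⟨M, hM⟩ with hm
    have hne : ∀ x : Fin n, x.val < M + 1 → x ≠ m → x.val < M := by
      intro x hx hxm
      have : x.val ≠ M := fun h => hxm (Fin.ext h)
      omega
    set A0 := B.filter (fun C => m ∉ C) with hA0
    set A1 := (B.filter (fun C => m ∈ C)).image (fun C => C.erase m) with hA1
    have hcard : B.card = A0.card + A1.card := by
      have h1 : A1.card = (B.filter (fun C => m ∈ C)).card := by
        apply card_image_of_injOn
        intro C hC C' hC' h
        have h1 := (mem_filter.1 hC).2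
        have h2 := (mem_filter.1 hC').2
        have h' : C.erase m = C'.erase m := h
        rw [← insert_erase h1, h', insert_erase h2]
      have h2 := Finset.card_filter_add_card_filter_not (s := B) (fun C => m ∈ C)
      rw [h1, hA0]
      omega
    have h0 : A0.card ≤ bb k M d := by
      refine ih d A0 (by omega) (fun f hf => hKB f fun j => (mem_filter.1 (hf j)).1) ?_
      intro C hC x hx
      have hC' := mem_filter.1 hC
      exact hne x (hSB C hC'.1 x hx) (fun h => hC'.2 (h ▸ hx))
    by_cases hdk : d < k
    · -- no member contains `m`
      have hempty : A1.card = 0 := by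
        rw [card_eq_zero, hA1, image_eq_empty, filter_eq_empty_iff]
        intro C hC hmC
        have hsm : ({m} : Finset (Fin n)) ∈ B := hDown C hC _ (singleton_subset_iff.2 hmC)
        have hsx : ∀ x : Fin n, x.val ≤ M → ({x} : Finset (Fin n)) ∈ B := by
          intro x hx
          by_cases hxm : x = m
          · rw [hxm]; exact hsm
          · have hlt : x < m := by
              have := hne x (by omega) hxm
              exact this
            have := hSh {m} hsm x m hlt (mem_singleton_self m) (by
              rw [mem_singleton]; exact hxm)
            simpa using this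
        have hf := hKB (fun j : Fin k => ({⟨min j.val d, by omega⟩} : Finset (Fin n)))
          (fun j => hsx ⟨min j.val d, by omega⟩ (by show min j.val d ≤ M; omega))
        have hge : (univ : Finset (Fin (d + 1))).card ≤
            (univ.biUnion (fun j : Fin k => ({⟨min j.val d, by omega⟩} : Finset (Fin n)))).card := by
          refine card_le_card_of_injOn (fun i : Fin (d + 1) => (⟨i.val, by omega⟩ : Fin n)) ?_ ?_
          · intro i _
            rw [mem_coe, mem_biUnion]
            refine ⟨⟨i.val, by omega⟩, mem_univ _, ?_⟩
            rw [mem_singleton, Fin.mk.injEq]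
            simp only
            omega
          · intro i _ i' _ h
            simp only [Fin.mk.injEq] at h
            exact Fin.ext h
        rw [card_univ, Fintype.card_fin] at hge
        omega
      have hbb : bb k (M + 1) d = bb k M d := by
        unfold bb
        rw [Nat.div_eq_of_lt hdk]
        simp
      rw [hcard, hempty, hbb]
      exact h0
    · push Not at hdk
      have h1 : A1.card ≤ bb k M (d - k) := by
        refine ih (d - k) A1 (by omega) ?_ ?_
        · intro g hg
          have hg' : ∀ j, ∃ C ∈ B, m ∈ C ∧ C.erase m = g j := by
            intro j
            obtain ⟨C, hC, hCg⟩ := mem_image.1 (hg j)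
            exact ⟨C, (mem_filter.1 hC).1, (mem_filter.1 hC).2, hCg⟩
          choose C hCB hmC hCg using hg'
          set U := univ.biUnion g with hU
          have hmU : m ∉ U := by
            rw [hU, mem_biUnion]
            rintro ⟨j, _, hj⟩
            rw [← hCg j] at hj
            exact (mem_erase.1 hj).1 rfl
          have hUI : U ⊆ ini n (M + 1) := by
            intro x hx
            rw [hU, mem_biUnion] at hx
            obtain ⟨j, _, hj⟩ := hx
            rw [← hCg j] at hj
            exact mem_filter.2 ⟨mem_univ _, hSB (C j) (hCB j) x (mem_erase.1 hj).2⟩
          set F := ini n (M + 1) \ U with hF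
          have hmF : m ∈ F := mem_sdiff.2 ⟨mem_filter.2 ⟨mem_univ _, Nat.lt_succ_self M⟩, hmU⟩
          have hUF : U.card + F.card = M + 1 := by
            rw [hF, card_sdiff_of_subset hUI, card_ini hM]
            have := card_le_card hUI
            rw [card_ini hM] at this
            omega
          have star : ∀ T ⊆ F, T.card ≤ k → U.card + T.card ≤ d := by
            intro T hT hTk
            set φ : Fin k → Fin n := fun j =>
              if h : j.val < T.card then T.orderEmbOfFin rfl ⟨j.val, h⟩ else m with hφ
            have hφF : ∀ j, φ j ∈ F := by
              intro j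
              simp only [hφ]
              split_ifs with h
              · exact hT (orderEmbOfFin_mem T rfl _)
              · exact hmF
            have hB' : ∀ j, insert (φ j) (g j) ∈ B := by
              intro j
              rw [← hCg j]
              have hj := mem_sdiff.1 (hφF j)
              by_cases hjm : φ j = m
              · rw [hjm, insert_erase (hmC j)]
                exact hCB j
              · have hlt : φ j < m := hne _ (mem_filter.1 hj.1).2 hjm
                refine hSh (C j) (hCB j) (φ j) m hlt (hmC j) ?_
                intro hin
                apply hj.2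
                rw [hU, mem_biUnion]
                exact ⟨j, mem_univ _, by rw [← hCg j]; exact mem_erase.2 ⟨hjm, hin⟩⟩
            have hle := hKB (fun j => insert (φ j) (g j)) hB'
            have hsub : U ∪ T ⊆ univ.biUnion (fun j => insert (φ j) (g j)) := by
              intro x hx
              rw [mem_biUnion]
              rcases mem_union.1 hx with h | h
              · rw [hU, mem_biUnion] at h
                obtain ⟨j, _, hj⟩ := h
                exact ⟨j, mem_univ _, mem_insert_of_mem hj⟩
              · have hx' : x ∈ Set.range (T.orderEmbOfFin rfl) := by
                  rw [range_orderEmbOfFin]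
                  exact h
                obtain ⟨i, hi⟩ := hx'
                refine ⟨⟨i.val, lt_of_lt_of_le i.2 hTk⟩, mem_univ _, ?_⟩
                apply mem_insert.2
                left
                simp only [hφ]
                rw [dif_pos i.2]
                exact hi.symm
            have hdis : Disjoint U T := by
              rw [disjoint_left]
              intro x hxU hxT
              exact (mem_sdiff.1 (hT hxT)).2 hxU
            have := card_le_card hsub
            rw [card_union_of_disjoint hdis] at this
            omega
          by_cases hkF : k ≤ F.card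
          · obtain ⟨T, hT, hTc⟩ := exists_subset_card_eq hkF
            have := star T hT hTc.le
            omega
          · have := star F (Subset.refl _) (by omega)
            omega
        · intro C hC x hx
          obtain ⟨C', hC', rfl⟩ := mem_image.1 hC
          have h2 := mem_erase.1 hx
          exact hne x (hSB C' (mem_filter.1 hC').1 x h2.2) h2.1
      rw [hcard, pascal hk hdk]
      omega

end Pool.Agent.E8helper99.EF
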